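import Pool.Agent.P8H96.RL.Stm

/-! Package HB of project RL: the bound for the Hankel determinants (adapted from `H904L2.AT1` and
`H904L2.det_lt_one`). -/

set_option autoImplicit false

open Polynomial
open scoped Real

namespace Pool.Agent.P8H53.RL

open H904L2 H904L2.Psi Pool.Agent.N772.CZ Pool.Agent.P8H96.RL

open H904L2.DetBound in
theorem det_bound (L : ℂ[X] →ₗ[ℂ] ℂ) (K : Set ℂ) (hK : IsCompact K) (hKi : K.Infinite) (C : ℝ)
    (hL : ∀ p : ℂ[X], ∀ B : ℝ, (∀ z ∈ K, ‖p.eval z‖ ≤ B) → ‖L p‖ ≤ C * B)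
    (b κ : ℝ)
    (hE : ∀ N : ℕ, 0 < N → ∀ z : Fin N → ℂ, Function.Injective z → (∀ i, z i ∈ K) →
      ∑ i, ∑ j ∈ Finset.univ.erase i, Real.log ‖z i - z j‖ ≤ N * b + (N : ℝ) ^ 2 * κ) (N : ℕ)
    (hN2 : 0 < N) :
      ‖(Matrix.of fun i j : Fin N => L (X ^ ((i : ℕ) + (j : ℕ)))).det‖ ≤
        Real.exp (N * b + (N : ℝ) ^ 2 * κ) * ((N.factorial : ℝ) * C ^ N) := by
  obtain ⟨ζ, hζK, hdet, hmax⟩ := exists_fekete K hK hKi N
  have hinj : Function.Injective ζ := Matrix.det_vandermonde_ne_zero_iff.1 hdet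
  have hlk : ∀ k, ∀ z ∈ K, ‖(lk ζ k).eval z‖ ≤ 1 := by
    intro k z hz
    rw [lk_eval, norm_mul, norm_inv]
    have h1 := hmax (Function.update ζ k z) (fun i => by
      by_cases h : i = k
      · subst h
        rw [Function.update_self]
        exact hz
      · rw [Function.update_of_ne h]
        exact hζK i)
    have h2 : 0 < ‖(Matrix.vandermonde ζ).det‖ := norm_pos_iff.2 hdet
    rw [inv_mul_le_iff₀ h2, mul_one]
    exact h1
  rw [hankel_eq L ζ hdet, Matrix.det_mul, Matrix.det_mul, Matrix.det_transpose, norm_mul,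
    norm_mul]
  have hA : ‖(Matrix.of fun k l : Fin N => L (lk ζ k * lk ζ l)).det‖ ≤
      (N.factorial : ℝ) * C ^ N := by
    have h1 := Matrix.det_le (A := Matrix.of fun k l : Fin N => L (lk ζ k * lk ζ l))
      (abv := NormedField.toAbsoluteValue ℂ) (x := C) (fun k l => by
        have h2 := hL (lk ζ k * lk ζ l) 1 (fun z hz => by
          rw [eval_mul, norm_mul]
          exact mul_le_one₀ (hlk k z hz) (norm_nonneg _) (hlk l z hz))
        rw [mul_one] at h2
        exact h2)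
    rw [Fintype.card_fin, nsmul_eq_mul] at h1
    exact h1
  have hE' := hE N hN2 ζ hinj hζK
  calc _ = ‖(Matrix.vandermonde ζ).det‖ ^ 2 *
        ‖(Matrix.of fun k l : Fin N => L (lk ζ k * lk ζ l)).det‖ := by ring
    _ ≤ Real.exp (N * b + (N : ℝ) ^ 2 * κ) * ((N.factorial : ℝ) * C ^ N) := by
        rw [det_sq ζ hinj]
        exact mul_le_mul (Real.exp_le_exp.2 hE') hA (norm_nonneg _) (Real.exp_pos _).le

theorem hankel_bound {ι : Type} [Fintype ι] [Nonempty ι] (a : ι → ℂ) (ha : ∀ i, a i ≠ 0)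
    (c : ℕ → ℂ) (hc0 : c 0 = 1)
    (hc : (PowerSeries.mk c) ^ 2 =
      ((∏ i, (1 - C (a i) * X) : ℂ[X]) : PowerSeries ℂ))
    (φ : ℂ → ℝ) (hφ : ContDiff ℝ 1 φ) (hφc : HasCompactSupport φ) (T : ℝ)
    (hφT : ∀ z, ‖z‖ ≤ Real.exp (-T) → φ z = 0) (ε κ : ℝ)
    (hφK : ∀ i, ∀ t : ℝ, t ≤ Real.log ‖a i‖ →
      max t 0 - φ (Complex.exp (t + (a i).arg * Complex.I)) ≤ ε) (hT : 0 < T)
    (hF : (2 * π)⁻¹ * (∫ z, dirE φ z) + 2 * Real.circleAverage φ 0 1 + 2 * ε < κ) :
    ∃ b C : ℝ, 0 ≤ C ∧ ∀ N : ℕ, 0 < N →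
      ‖(Matrix.of fun i j : Fin N => c ((i : ℕ) + (j : ℕ))).det‖ ≤
        Real.exp (N * b + (N : ℝ) ^ 2 * κ) * ((N.factorial : ℝ) * C ^ N) := by
  classical
  set F : ℝ := (2 * π)⁻¹ * (∫ z, dirE φ z) + 2 * Real.circleAverage φ 0 1 with hFdef
  -- the function log⁺ - φ
  set h : ℂ → ℝ := fun w => Real.posLog ‖w‖ - φ w with hh
  have hcont : Continuous h := by
    have h1 : Continuous fun w : ℂ => Real.posLog ‖w‖ := Real.continuous_posLog.comp continuous_norm
    exact h1.sub hφ.continuous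
  have hexp : ∀ (t y : ℝ), ‖Complex.exp (t + y * Complex.I)‖ = Real.exp t := by
    intro t y
    rw [Complex.norm_exp]
    simp
  have hε0 : 0 ≤ ε := by
    obtain ⟨i⟩ := (inferInstance : Nonempty ι)
    have h1 := hφK i (min (Real.log ‖a i‖) (-T)) (min_le_left _ _)
    have h2 : φ (Complex.exp (((min (Real.log ‖a i‖) (-T) : ℝ) : ℂ) + (a i).arg * Complex.I)) = 0 := by
      apply hφT
      rw [hexp]
      exact Real.exp_le_exp.2 (min_le_right _ _)
    rw [h2] at h1
    have h3 : (0:ℝ) ≤ max (min (Real.log ‖a i‖) (-T)) 0 := le_max_right _ _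
    linarith
  obtain ⟨η', hη'1, hη'2⟩ : ∃ η', ε < η' ∧ F + 2 * η' < κ := by
    refine ⟨(ε + (κ - F) / 2) / 2, ?_, ?_⟩ <;> linarith
  obtain ⟨δ, ρ, hδ, hρ, hclose⟩ := Kset_close a T h hcont ε η' hη'1
    (by
      intro z hz
      have h1 : φ z = 0 := hφT z hz.le
      have h2 : Real.posLog ‖z‖ = 0 := by
        rw [hz, Real.posLog_eq_zero_iff, abs_of_pos (Real.exp_pos _)]
        exact Real.exp_le_one_iff.2 (by linarith)
      simp only [hh, h1, h2]
      linarith)
    (by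
      intro i t _ ht
      have h1 := hφK i t ht
      have h2 : Real.posLog ‖Complex.exp (t + (a i).arg * Complex.I)‖ = max t 0 := by
        rw [hexp, Real.posLog, Real.log_exp, max_comm]
      simp only [hh, h2]
      exact h1)
  -- the radius
  obtain ⟨R, hR0, hRa, hRT⟩ : ∃ R : ℝ, 0 < R ∧ (∀ i, ‖a i‖ < R) ∧ Real.exp (-T) < R := by
    refine ⟨(∑ i, ‖a i‖) + Real.exp (-T) + 1, ?_, ?_, ?_⟩
    · have := Finset.sum_nonneg (s := Finset.univ) (fun i _ => norm_nonneg (a i))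
      have := Real.exp_pos (-T)
      linarith
    · intro i
      have := Finset.single_le_sum (f := fun i => ‖a i‖) (fun i _ => norm_nonneg (a i)) (Finset.mem_univ i)
      have := Real.exp_pos (-T)
      linarith
    · have := Finset.sum_nonneg (s := Finset.univ) (fun i _ => norm_nonneg (a i))
      linarith
  obtain ⟨C, hC0, hC⟩ := contour_bound a ha T δ R hδ hRa hRT
  set L := AT1.Lf a R hR0 (AT1.continuousOn_Fsq a R hR0 hRa) with hL
  have hLb : ∀ p : ℂ[X], ∀ B : ℝ, (∀ z ∈ Kset a T δ, ‖p.eval z‖ ≤ B) → ‖L p‖ ≤ C * B := hC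
  -- coefficients
  obtain ⟨c', hc'0, hc'sq, hc'⟩ := exists_coeffs a
  have hcc : ∀ n, c' n = c n := by
    have h1 : (PowerSeries.mk c' - PowerSeries.mk c) *
        (PowerSeries.mk c' + PowerSeries.mk c) = 0 := by
      have : (PowerSeries.mk c') ^ 2 = (PowerSeries.mk c) ^ 2 := by
        rw [hc'sq, hc]
      linear_combination this
    rcases mul_eq_zero.1 h1 with h2 | h2
    · intro n
      have h3 := congrArg (PowerSeries.coeff n) (sub_eq_zero.1 h2)
      simpa using h3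
    · exfalso
      have h3 := congrArg (PowerSeries.coeff 0) h2
      simp only [map_add, PowerSeries.coeff_mk, map_zero, hc'0, hc0] at h3
      norm_num at h3
  have hLX : ∀ n : ℕ, L (X ^ n) = c n := by
    intro n
    have h1 := hc' R hR0 hRa n
    rw [← hcc n, ← h1]
    change Real.circleAverage (fun z => Fsq a z * (X ^ n : ℂ[X]).eval z) 0 R = _
    simp
  -- the energy bound on the compact set
  have hE : ∀ N : ℕ, 0 < N → ∀ z : Fin N → ℂ, Function.Injective z →
      (∀ i, z i ∈ Kset a T δ) →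
      ∑ i, ∑ j ∈ Finset.univ.erase i, Real.log ‖z i - z j‖ ≤
        N * Real.log (1 / ρ) + (N : ℝ) ^ 2 * κ := by
    intro N hN z hz hzK
    have h1 := energy_bound φ hφ hφc hN z hz hρ
    have h2 : ∑ i, Real.circleAverage (fun w => Real.posLog ‖w‖ - φ w) (z i) ρ ≤ N * η' := by
      calc ∑ i, Real.circleAverage (fun w => Real.posLog ‖w‖ - φ w) (z i) ρ
          ≤ ∑ _i : Fin N, η' := Finset.sum_le_sum (fun i _ => hclose (z i) (hzK i))
        _ = N * η' := by simp
    have h3 : 2 * (N : ℝ) * ∑ i, Real.circleAverage (fun w => Real.posLog ‖w‖ - φ w) (z i) ρ ≤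
        2 * (N : ℝ) * (N * η') := by
      apply mul_le_mul_of_nonneg_left h2
      positivity
    calc _ ≤ _ := h1
      _ ≤ N * Real.log (1 / ρ) + (N : ℝ) ^ 2 * F + 2 * N * (N * η') := by
          rw [hFdef]
          linarith
      _ = N * Real.log (1 / ρ) + (N : ℝ) ^ 2 * (F + 2 * η') := by ring
      _ ≤ _ := by
          have : (N : ℝ) ^ 2 * (F + 2 * η') ≤ (N : ℝ) ^ 2 * κ :=
            mul_le_mul_of_nonneg_left hη'2.le (by positivity)
          linarith
  refine ⟨Real.log (1 / ρ), C, hC0, fun N hN => ?_⟩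
  have h1 := det_bound L (Kset a T δ) (Kset_isCompact a T δ) (Kset_infinite a T δ) C
    hLb (Real.log (1 / ρ)) κ hE N hN
  have h2 : (Matrix.of fun i j : Fin N => L (X ^ ((i : ℕ) + (j : ℕ)))) =
      (Matrix.of fun i j : Fin N => c ((i : ℕ) + (j : ℕ))) := by
    ext i j
    simp [hLX]
  rwa [h2] at h1

theorem hb : S_PSI → S_HB := by
  intro hpsi ι _ _ a ha c hc0 hc κ hκ
  have hA : (∫ x in (-π)..π, roof (fun i => (a i).arg) (fun i => Real.posLog ‖a i‖) x) =
      area (Set.range a) := by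
    unfold area
    exact intervalIntegral.integral_congr fun x _ => roof_eq_RF a x
  obtain ⟨Ψ, T, ε, hT, hΨ, hper, hsupp, hK, hF⟩ := hpsi ι (fun i => (a i).arg)
    (fun i => Real.posLog ‖a i‖) (fun i => Real.posLog_nonneg) κ (by rw [hA]; exact hκ)
  obtain ⟨φ, hφ, hφc, hφe, hφ0, hφD, hφA⟩ := exists_phi Ψ hΨ hper T hT hsupp
  exact hankel_bound a ha c hc0 hc φ hφ hφc T hφ0 ε κ
    (by
      intro i t ht
      rw [hφe]
      apply hK i t
      exact ht.trans (le_max_right _ _)) hT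
    (by
      rw [hφD, hφA]
      exact hF)

end Pool.Agent.P8H53.RL
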