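import Pool.Agent.P8H96.RL.Stm2

/-! Package HT of project RL: the height of an algebraic integer as a mean over the conjugates. -/

set_option autoImplicit false

open Polynomial IntermediateField Module
open scoped Real NumberField

namespace Pool.Agent.P8H53.RL

open NumberField

theorem sum_places {K : Type*} [Field K] [NumberField K] (f : ℝ → ℝ) (y : K) :
    ∑ v : InfinitePlace K, (v.mult : ℝ) * f (v y) = ∑ φ : K →+* ℂ, f ‖φ y‖ := by
  classical
  rw [← Finset.sum_fiberwise (s := Finset.univ) (g := InfinitePlace.mk (K := K))]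
  refine Finset.sum_congr rfl fun v _ => ?_
  have h1 : ∀ φ ∈ Finset.univ.filter (fun φ : K →+* ℂ => InfinitePlace.mk φ = v),
      f ‖φ y‖ = f (v y) := by
    intro φ hφ
    rw [← (Finset.mem_filter.1 hφ).2, InfinitePlace.apply]
  rw [Finset.sum_congr rfl h1, Finset.sum_const, nsmul_eq_mul, InfinitePlace.card_filter_mk_eq]

theorem fin_zero {K : Type*} [Field K] [NumberField K] (y : 𝓞 K) (v : FinitePlace K) :
    Real.posLog (v (y : K)) = 0 := by
  have h1 := FinitePlace.norm_le_one K v.maximalIdeal y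
  rw [FinitePlace.norm_embedding_eq] at h1
  rw [Real.posLog_eq_zero_iff, abs_of_nonneg (apply_nonneg v _)]
  exact h1

theorem logHeight₁_int {K : Type*} [Field K] [NumberField K] (y : K) (hy : IsIntegral ℤ y) :
    Height.logHeight₁ y = ∑ φ : K →+* ℂ, Real.posLog ‖φ y‖ := by
  rw [NumberField.logHeight₁_eq, sum_places]
  have h1 : ∀ v : FinitePlace K, Real.posLog (v y) = 0 := fun v => fin_zero ⟨y, hy⟩ v
  simp only [h1, finsum_zero, add_zero]

theorem sum_emb {K : Type*} [Field K] [NumberField K] (pb : PowerBasis ℚ K) (g : ℂ → ℝ) :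
    ∑ φ : K →+* ℂ, g (φ pb.gen) = (((minpoly ℚ pb.gen).aroots ℂ).map g).sum := by
  classical
  have h0 : ∑ φ : K →+* ℂ, g (φ pb.gen) = ∑ τ : K →ₐ[ℚ] ℂ, g (τ pb.gen) :=
    Fintype.sum_equiv (RingHom.equivRatAlgHom K ℂ) _ _ fun φ => rfl
  have hsep : ((minpoly ℚ pb.gen).aroots ℂ).Nodup :=
    nodup_roots (Separable.map (minpoly.irreducible (Algebra.IsIntegral.isIntegral _)).separable)
  rw [h0]
  refine (Fintype.sum_equiv pb.liftEquiv' (fun τ : K →ₐ[ℚ] ℂ => g (τ pb.gen))
    (fun y => g y.1) (fun τ => ?_)).trans ?_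
  · rw [PowerBasis.liftEquiv'_apply_coe]
  · rw [Finset.sum_mem_multiset _ _ g (fun y => rfl), Finset.sum_eq_multiset_sum,
      Multiset.toFinset_val, Multiset.dedup_eq_self.mpr hsep]

theorem ht_field {F : Type*} [Field F] [CharZero F] (x : F) (hx : IsIntegral ℤ x) :
    NumberField.absLogHeight₁ x =
      (((minpoly ℤ x).map (Int.castRingHom ℂ)).roots.map fun z => Real.posLog ‖z‖).sum /
        (minpoly ℤ x).natDegree := by
  have hxQ : IsIntegral ℚ x := hx.tower_top
  unfold NumberField.absLogHeight₁ NumberField.absMulHeight₁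
  rw [dif_pos hxQ]
  haveI : FiniteDimensional ℚ ℚ⟮x⟯ := adjoin.finiteDimensional hxQ
  haveI : NumberField ℚ⟮x⟯ := {}
  have hy : IsIntegral ℤ (AdjoinSimple.gen ℚ x) := by
    have hinj : Function.Injective (algebraMap ℚ⟮x⟯ F) := (algebraMap ℚ⟮x⟯ F).injective
    rw [← isIntegral_algebraMap_iff hinj]
    exact hx
  have hmin : minpoly ℚ x = (minpoly ℤ x).map (algebraMap ℤ ℚ) :=
    minpoly.isIntegrallyClosed_eq_field_fractions' ℚ hx
  have hdeg : finrank ℚ ℚ⟮x⟯ = (minpoly ℤ x).natDegree := by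
    rw [adjoin.finrank hxQ, hmin, (minpoly.monic hx).natDegree_map]
  rw [Real.log_rpow (Height.mulHeight₁_pos _), ← Height.logHeight₁_eq_log_mulHeight₁,
    logHeight₁_int _ hy]
  let pb := adjoin.powerBasis hxQ
  have hgen : pb.gen = AdjoinSimple.gen ℚ x := adjoin.powerBasis_gen hxQ
  have h1 := sum_emb pb fun z => Real.posLog ‖z‖
  have hmg : minpoly ℚ pb.gen = minpoly ℚ x := by
    rw [hgen]
    exact minpoly_gen ℚ x
  rw [hmg, hgen, aroots_def, hmin, Polynomial.map_map] at h1
  have hc : (algebraMap ℚ ℂ).comp (algebraMap ℤ ℚ) = Int.castRingHom ℂ := by ext; simp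
  rw [hc] at h1
  rw [hdeg, div_eq_inv_mul]
  exact congrArg _ h1

theorem ht : Pool.Agent.P8H96.RL.S_HT := by
  intro α hα
  have hinst : Ring.toIntAlgebra (AlgebraicClosure ℚ) = AlgebraicClosure.instAlgebra ℚ :=
    Subsingleton.elim _ _
  have h1 := ht_field α (by rw [hinst]; exact hα)
  rw [h1, hinst]

end Pool.Agent.P8H53.RL
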