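import Pool.Agent.P8H96.RL.Stm

/-! Package PSI of project RL: the function `Ψ` with a general constant (adapted from
`Pool.Agent.N772.CZ.exists_Psi'`). -/

set_option autoImplicit false

open Polynomial
open scoped Real

namespace Pool.Agent.P8H53.RL

open H904L2 H904L2.Psi Pool.Agent.N772.CZ Pool.Agent.P8H96.RL

theorem psi_ex {ι : Type} [Fintype ι] [Nonempty ι] (θ ℓ : ι → ℝ) (hℓ : ∀ i, 0 ≤ ℓ i) (kk : ℝ)
    (hs : π⁻¹ * (4411 / 560 * (∫ x in (-π)..π, roof θ ℓ x) -
      105 / 2048 * (π ^ 2 / (Fintype.card ι : ℝ))) < kk) :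
    ∃ (Ψ : ℂ → ℝ) (T ε : ℝ), 0 < T ∧ ContDiff ℝ 1 Ψ ∧
      (∀ w, Ψ (w + 2 * π * Complex.I) = Ψ w) ∧ (∀ w : ℂ, T ≤ |w.re| → Ψ w = 0) ∧
      (∀ i, ∀ t : ℝ, t ≤ ℓ i → max t 0 - Ψ (t + θ i * Complex.I) ≤ ε) ∧
      (2 * π)⁻¹ * (∫ w in strip, dirE Ψ w) +
        2 * ((2 * π)⁻¹ * ∫ x in (-π)..π, Ψ (x * Complex.I)) + 2 * ε < kk := by
  classical
  set n : ℝ := (Fintype.card ι : ℝ) with hn
  have hn1 : 1 ≤ n := by
    rw [hn]
    exact_mod_cast Fintype.card_pos
  have hn0 : 0 < n := by linarith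
  have hπ0 : 0 < π := Real.pi_pos
  obtain ⟨e, he0, he⟩ : ∃ e : ℝ, 0 < e ∧ π⁻¹ * (4411 / 560 * ((∫ x in (-π)..π, roof θ ℓ x) + e) -
      105 / 2048 * (π ^ 2 / n) + 105 / 512 * π * e) < kk := by
    set g : ℝ := kk - π⁻¹ * (4411 / 560 * (∫ x in (-π)..π, roof θ ℓ x) -
      105 / 2048 * (π ^ 2 / n)) with hg
    have hg0 : 0 < g := sub_pos.2 hs
    refine ⟨g * π / (4411 / 560 + 105 / 512 * π) / 2, by positivity, ?_⟩
    have hd : (4411 / 560 + 105 / 512 * π : ℝ) ≠ 0 := by positivity
    have h1 : π⁻¹ * ((4411 / 560 + 105 / 512 * π) *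
        (g * π / (4411 / 560 + 105 / 512 * π) / 2)) = g / 2 := by
      field_simp
    have h2 : π⁻¹ * (4411 / 560 * ((∫ x in (-π)..π, roof θ ℓ x) +
        g * π / (4411 / 560 + 105 / 512 * π) / 2) -
        105 / 2048 * (π ^ 2 / n) +
        105 / 512 * π * (g * π / (4411 / 560 + 105 / 512 * π) / 2)) = (kk - g) + g / 2 := by
      rw [← h1, hg]
      ring
    rw [h2]
    linarith
  obtain ⟨S, hSc, hSper, hSder, hSpos, hSge, hSint⟩ := Pool.Agent.N772.CZ.exists_envelope θ ℓ hℓ e he0
  obtain ⟨R, hRc, hRper, hRder, hRpos, hRle, hRint⟩ := exists_gap θ e he0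
  obtain ⟨MS, hMS0, hMS⟩ := bounded_of S hSc.continuous hSper
  obtain ⟨MR, hMR0, hMR⟩ := bounded_of R hRc.continuous hRper
  have hfc : ContDiff ℝ 1 (prof Bpr S) := prof_contDiff Bpr S Bpr_contDiff hSc hSpos
  have hgc : ContDiff ℝ 1 (prof Apr R) := prof_contDiff Apr R Apr_contDiff hRc hRpos
  obtain ⟨hfi, hfI⟩ := prof_integral Bpr S Bpr_contDiff 3 Bpr_zero_of hSc hSpos hSder
  obtain ⟨hgi, hgI⟩ := prof_integral Apr R Apr_contDiff 1 Apr_zero_of hRc hRpos hRder
  rw [Bpr_integral] at hfI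
  rw [Apr_integral] at hgI
  set κ : ℝ := 105 / 1024 with hκ
  have hΨc : ContDiff ℝ 1 (fun z => prof Bpr S z - κ * prof Apr R z) :=
    hfc.sub (contDiff_const.mul hgc)
  refine ⟨fun z => prof Bpr S z - κ * prof Apr R z, 1 + 3 * MS + MR, κ * e, by positivity,
    hΨc, ?_, ?_, ?_, ?_⟩
  · intro w
    have h1 : (w + 2 * π * Complex.I).im = w.im + 2 * π := by simp
    have h2 : (w + 2 * π * Complex.I).re = w.re := by simp
    simp only [prof, h1, h2, hSper w.im, hRper w.im]
  · intro w hw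
    have hS1 : Bpr (w.re / S w.im) = 0 := by
      apply Bpr_zero_of
      rw [abs_div, le_div_iff₀ (abs_pos.mpr (hSpos w.im).ne')]
      have := hMS w.im
      linarith
    have hR1 : Apr (w.re / R w.im) = 0 := by
      apply Apr_zero_of
      rw [abs_div, le_div_iff₀ (abs_pos.mpr (hRpos w.im).ne')]
      have := hMR w.im
      linarith
    simp only [prof, hS1, hR1]
    ring
  · intro i t ht
    have h1 : (t + θ i * Complex.I : ℂ).im = θ i := by simp
    have h2 : (t + θ i * Complex.I : ℂ).re = t := by simp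
    simp only [prof, h1, h2]
    have hA : R (θ i) * Apr (t / R (θ i)) ≤ e := by
      calc R (θ i) * Apr (t / R (θ i)) ≤ R (θ i) * 1 :=
            mul_le_mul_of_nonneg_left (Apr_le_one _) (hRpos _).le
        _ ≤ e := by rw [mul_one]; exact hRle i
    have hκA : κ * (R (θ i) * Apr (t / R (θ i))) ≤ κ * e :=
      mul_le_mul_of_nonneg_left hA (by norm_num [hκ])
    have hB : max t 0 ≤ S (θ i) * Bpr (t / S (θ i)) := by
      have hSp := hSpos (θ i)
      apply max_le
      · rcases le_or_gt t 0 with h0 | h0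
        · exact h0.trans (mul_nonneg hSp.le (Bpr_nonneg _))
        · have h3 : t / S (θ i) ≤ Bpr (t / S (θ i)) := by
            apply Bpr_ge
            · positivity
            · rw [div_le_one hSp]
              exact ht.trans (hSge i)
          calc t = S (θ i) * (t / S (θ i)) := by field_simp
            _ ≤ _ := mul_le_mul_of_nonneg_left h3 hSp.le
      · exact mul_nonneg hSp.le (Bpr_nonneg _)
    linarith
  · have hI1 : ∫ w in strip, dirE (fun z => prof Bpr S z - κ * prof Apr R z) w ≤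
        2 * (256 / 35 * ∫ x in (-π)..π, S x) +
          2 * κ ^ 2 * (512 / 105 * ∫ x in (-π)..π, R x) := by
      have hi2 : MeasureTheory.IntegrableOn
          (fun w => 2 * dirE (prof Bpr S) w + 2 * κ ^ 2 * dirE (prof Apr R) w) strip :=
        (hfi.const_mul 2).add (hgi.const_mul (2 * κ ^ 2))
      calc ∫ w in strip, dirE (fun z => prof Bpr S z - κ * prof Apr R z) w
          ≤ ∫ w in strip, (2 * dirE (prof Bpr S) w + 2 * κ ^ 2 * dirE (prof Apr R) w) := by
            apply MeasureTheory.integral_mono_of_nonneg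
            · exact Filter.Eventually.of_forall fun w => dirE_nonneg _ w
            · exact hi2
            · exact Filter.Eventually.of_forall fun w => dirE_sub_le _ _ κ hfc hgc w
        _ = 2 * (∫ w in strip, dirE (prof Bpr S) w) +
            2 * κ ^ 2 * (∫ w in strip, dirE (prof Apr R) w) := by
            rw [MeasureTheory.integral_add (hfi.const_mul 2) (hgi.const_mul (2 * κ ^ 2)),
              MeasureTheory.integral_const_mul, MeasureTheory.integral_const_mul]
        _ ≤ _ := by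
            have : 0 ≤ 2 * κ ^ 2 := by positivity
            exact add_le_add (mul_le_mul_of_nonneg_left hfI (by norm_num))
              (mul_le_mul_of_nonneg_left hgI this)
    have hI2 : ∫ x in (-π)..π, (fun z => prof Bpr S z - κ * prof Apr R z) (x * Complex.I) =
        9 / 16 * (∫ x in (-π)..π, S x) - κ * ∫ x in (-π)..π, R x := by
      have h3 : ∀ x : ℝ, (fun z => prof Bpr S z - κ * prof Apr R z) (x * Complex.I) =
          9 / 16 * S x - κ * R x := by
        intro x
        simp only [prof]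
        have h1 : (x * Complex.I : ℂ).im = x := by simp
        have h2 : (x * Complex.I : ℂ).re = 0 := by simp
        rw [h1, h2]
        simp only [zero_div, Apr_at_zero, Bpr_at_zero]
        ring
      rw [intervalIntegral.integral_congr (g := fun x => 9 / 16 * S x - κ * R x)
        (fun x _ => h3 x)]
      rw [intervalIntegral.integral_sub
        ((hSc.continuous.const_mul _).intervalIntegrable _ _)
        ((hRc.continuous.const_mul _).intervalIntegrable _ _),
        intervalIntegral.integral_const_mul, intervalIntegral.integral_const_mul]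
    rw [hI2]
    have hπ : 0 < π := Real.pi_pos
    have hπ2 : 9.8 < π ^ 2 := by
      have := Real.pi_gt_d4
      nlinarith
    have hπ3 : π < 3.15 := by
      have := Real.pi_lt_d2
      linarith
    have hi : (2 * π)⁻¹ * (∫ w in strip, dirE (fun z => prof Bpr S z - κ * prof Apr R z) w) ≤
        (2 * π)⁻¹ * (2 * (256 / 35 * ∫ x in (-π)..π, S x) +
          2 * κ ^ 2 * (512 / 105 * ∫ x in (-π)..π, R x)) :=
      mul_le_mul_of_nonneg_left hI1 (by positivity)
    refine lt_of_le_of_lt (add_le_add_left (add_le_add_left hi _) _) ?_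
    set IS := ∫ x in (-π)..π, S x with hIS
    set IR := ∫ x in (-π)..π, R x with hIR
    have hL : (2 * π)⁻¹ * (2 * (256 / 35 * IS) + 2 * κ ^ 2 * (512 / 105 * IR)) +
        2 * ((2 * π)⁻¹ * (9 / 16 * IS - κ * IR)) + 2 * (κ * e) =
        π⁻¹ * (4411 / 560 * IS - 105 / 2048 * IR + 105 / 512 * π * e) := by
      rw [hκ]
      field_simp
      ring
    rw [hL]
    refine lt_of_le_of_lt (mul_le_mul_of_nonneg_left ?_ (by positivity : (0:ℝ) ≤ π⁻¹)) he
    have h5 : 4411 / 560 * IS ≤ 4411 / 560 * ((∫ x in (-π)..π, roof θ ℓ x) + e) :=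
      mul_le_mul_of_nonneg_left hSint (by norm_num)
    have h6 : 105 / 2048 * (π ^ 2 / n) ≤ 105 / 2048 * IR :=
      mul_le_mul_of_nonneg_left hRint (by norm_num)
    linarith

theorem psi : S_PSI := fun _ _ _ θ ℓ hℓ kk hs => psi_ex θ ℓ hℓ kk hs

end Pool.Agent.P8H53.RL
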